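import Pool.Agent.N329.SD.StmL

/-!
# Project SD (helper329): the constructible sets of natural numbers are a closed class
-/

set_option autoImplicit false

namespace Pool.Agent.N234.SD

open Pool.Agent.W868 Pool.Agent.W868.GM Pool.Agent.R597
open Pool.Agent.N329.SD
open ZFSet (pair)

theorem nat_mem_zs {S : Set ℕ} {n : ℕ} : nat n ∈ zs S ↔ n ∈ S := by
  unfold zs
  rw [ZFSet.mem_sep]
  constructor
  · rintro ⟨-, m, hm, h⟩
    rwa [nat_injective h]
  · exact fun h => ⟨nat_mem_omega n, n, h, rfl⟩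

theorem mem_zs {S : Set ℕ} {x : ZFSet.{0}} : x ∈ zs S ↔ ∃ n ∈ S, x = nat n := by
  unfold zs
  rw [ZFSet.mem_sep]
  constructor
  · rintro ⟨-, h⟩
    exact h
  · rintro ⟨n, hn, rfl⟩
    exact ⟨nat_mem_omega n, n, hn, rfl⟩

theorem zs_eq {S : Set ℕ} {Q : ZFSet.{0} → Prop} (h : ∀ n, Q (nat n) ↔ n ∈ S) :
    zs S = ZFSet.sep Q ZFSet.omega := by
  ext x
  rw [ZFSet.mem_sep, mem_zs]
  constructor
  · rintro ⟨n, hn, rfl⟩
    exact ⟨nat_mem_omega n, (h n).2 hn⟩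
  · rintro ⟨hx, hQ⟩
    obtain ⟨n, rfl⟩ := mem_omega_iff.1 hx
    exact ⟨n, (h n).1 hQ, rfl⟩

theorem pair_mem_gp {f : ℕ →. ℕ} {a b : ℕ} : pair (nat a) (nat b) ∈ gp f ↔ b ∈ f a := by
  unfold N329.SD.gp
  rw [ZFSet.mem_sep]
  constructor
  · rintro ⟨-, a', b', h, h1⟩
    obtain ⟨h2, h3⟩ := ZFSet.pair_inj.1 h1
    rw [nat_injective h2, nat_injective h3]
    exact h
  · exact fun h => ⟨ZFSet.pair_mem_prod.2 ⟨nat_mem_omega a, nat_mem_omega b⟩, a, b, h, rfl⟩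

theorem zf : IsZF Lcls := isZFC_L.1.toIsZF

theorem con_of {S : Set ℕ} {Q : ZFSet.{0} → Prop} (h : ∀ n, Q (nat n) ↔ n ∈ S)
    (hd : Dfn Lcls Lcls fun w : Fin 1 → ZFSet.{0} => Q (w 0)) : Con S := by
  unfold N329.SD.Con
  rw [zs_eq h]
  exact zf.sep_mem hd zf.infinity

theorem gp_mem (hPR : S_PR) {g : ℕ → ℕ} (hg : Computable g) : gp (g : ℕ →. ℕ) ∈ Lcls :=
  hPR Lcls zf _ (Partrec.nat_iff.1 hg)

theorem mem_coe_fun {g : ℕ → ℕ} {a b : ℕ} : b ∈ (g : ℕ →. ℕ) a ↔ b = g a := by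
  rw [PFun.coe_val, Part.mem_some_iff]

/-- SD/CON -/
theorem con : S_CON := by
  intro hPR
  have hZ := zf
  have hB := hZ.base
  refine ⟨?_, ?_, ?_, ?_, ?_⟩
  · rintro P ⟨hD, hP⟩
    have hf : Computable fun n : ℕ => bif (decide (P n)) then 1 else 0 :=
      Computable.cond hP (Computable.const 1) (Computable.const 0)
    have h1 : nat 1 ∈ Lcls := hZ.trans _ hZ.infinity _ (nat_mem_omega 1)
    refine con_of (Q := fun x => pair x (nat 1) ∈
      gp ((fun n : ℕ => bif (decide (P n)) then 1 else 0 : ℕ → ℕ) : ℕ →. ℕ)) (fun n => ?_) ?_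
    · rw [pair_mem_gp, mem_coe_fun]
      by_cases h : P n
      · simp [h]
      · simp [h]
    · exact Dfn.mem (hB.pair' (DfnF.proj 0) (DfnF.const h1)) (DfnF.const (gp_mem hPR hf))
  · intro S hS
    refine con_of (Q := fun x => ¬ x ∈ zs S) (fun n => ?_) ?_
    · rw [nat_mem_zs]
      exact Iff.rfl
    · exact (Dfn.mem (DfnF.proj 0) (DfnF.const hS)).not
  · intro S T hS hT
    refine con_of (Q := fun x => x ∈ zs S ∧ x ∈ zs T) (fun n => ?_) ?_
    · rw [nat_mem_zs, nat_mem_zs]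
      exact Iff.rfl
    · exact (Dfn.mem (DfnF.proj 0) (DfnF.const hS)).and (Dfn.mem (DfnF.proj 0) (DfnF.const hT))
  · intro S g hS hg
    refine con_of (Q := fun x => ∃ y ∈ zs S, pair x y ∈ gp (g : ℕ →. ℕ)) (fun n => ?_) ?_
    · constructor
      · rintro ⟨y, hy, h⟩
        obtain ⟨m, hm, rfl⟩ := mem_zs.1 hy
        rw [pair_mem_gp, mem_coe_fun] at h
        rw [h] at hm
        exact hm
      · intro h
        exact ⟨nat (g n), mem_zs.2 ⟨g n, h, rfl⟩, pair_mem_gp.2 (mem_coe_fun.2 rfl)⟩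
    · apply hB.bex (DfnF.const hS)
      exact Dfn.mem (hB.pair' (DfnF.proj 1) (DfnF.proj 0)) (DfnF.const (gp_mem hPR hg))
  · intro S hS
    have hl : Computable fun n : ℕ => n.unpair.1 := Computable.fst.comp Computable.unpair
    refine con_of (Q := fun x => ∃ z ∈ zs S, pair z x ∈
      gp ((fun n : ℕ => n.unpair.1 : ℕ → ℕ) : ℕ →. ℕ)) (fun n => ?_) ?_
    · constructor
      · rintro ⟨z, hz, h⟩
        obtain ⟨k, hk, rfl⟩ := mem_zs.1 hz
        rw [pair_mem_gp, mem_coe_fun] at h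
        refine ⟨k.unpair.2, ?_⟩
        rw [h, Nat.pair_unpair]
        exact hk
      · rintro ⟨m, hm⟩
        refine ⟨nat (Nat.pair n m), mem_zs.2 ⟨_, hm, rfl⟩, pair_mem_gp.2 (mem_coe_fun.2 ?_)⟩
        simp
    · apply hB.bex (DfnF.const hS)
      exact Dfn.mem (hB.pair' (DfnF.proj 0) (DfnF.proj 1)) (DfnF.const (gp_mem hPR hl))

end Pool.Agent.N234.SD
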